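import Pool.Agent.H63.SEP.Stmts

/-!
Project SEP, modules ISI and ISF: isomorphisms of systems.
-/

set_option linter.unusedVariables false
set_option synthInstance.maxSize 100000

namespace SW.SEP

open SW

namespace Isf

section
variable {M : Type} [SetStr M] [ZF M]

theorem hx_emp (g : M) : hx g emp = emp :=
  the_eq (p := fun y => (emp = emp ∧ y = emp) ∨ (¬ (emp : M) = emp ∧ y = app g emp))
    (Or.inl ⟨rfl, rfl⟩) (by
      rintro z (⟨_, h⟩ | ⟨h, _⟩)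
      · exact h
      · exact absurd rfl h)

theorem hx_ne {g a : M} (h : a ≠ emp) : hx g a = app g a :=
  the_eq (p := fun y => (a = emp ∧ y = emp) ∨ (¬ a = emp ∧ y = app g a))
    (Or.inr ⟨h, rfl⟩) (by
      rintro z (⟨h', _⟩ | ⟨_, h'⟩)
      · exact absurd h' h
      · exact h')

theorem mem_act {g p z : M} : E z (act g p) ↔ ∃ a, E a p ∧ z = opair (hx g (p1 a)) (p2 a) := by
  unfold act
  rw [mem_img]

theorem mem_actn {g p z : M} : E z (actn g p) ↔ ∃ a, E a p ∧ z = opair (act g (p1 a)) (p2 a) := by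
  unfold actn
  rw [mem_img]

theorem mem_ig {g B z : M} : E z (ig g B) ↔ ∃ d, E d B ∧ z = app g d := by
  unfold ig
  rw [mem_img]

theorem act_in_of {g p e y : M} (h : E (opair e y) p) : E (opair (hx g e) y) (act g p) :=
  mem_act.2 ⟨_, h, by rw [p1_opair, p2_opair]⟩

theorem actn_in_of {g p e y : M} (h : E (opair e y) p) : E (opair (act g e) y) (actn g p) :=
  mem_actn.2 ⟨_, h, by rw [p1_opair, p2_opair]⟩

theorem act_mono {g p q : M} (h : Sub p q) : Sub (act g p) (act g q) := by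
  intro z hz
  obtain ⟨a, ha, rfl⟩ := mem_act.1 hz
  exact mem_act.2 ⟨a, h a ha, rfl⟩

theorem ig_mono {g p q : M} (h : Sub p q) : Sub (ig g p) (ig g q) := by
  intro z hz
  obtain ⟨a, ha, rfl⟩ := mem_ig.1 hz
  exact mem_ig.2 ⟨a, h a ha, rfl⟩

theorem atom_sh {I p a : M} (hp : E p (PS I)) (ha : E a p) :
    ∃ e y, a = opair e y ∧ (e = emp ∨ E e I) ∧ E y WW := by
  obtain ⟨e, y, he, hy, h⟩ := mem_prod'.1 (shp_sub (mem_PS.1 hp).1 a ha)
  exact ⟨e, y, h, (mem_ins.1 he).symm, hy⟩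

/-- `g'` undoes `g` on `B` -/
structure Inv (g g' B : M) : Prop where
  e0 : ¬ E emp B
  e1 : ∀ e, E e B → app g e ≠ emp
  e2 : ∀ e, E e B → app g' (app g e) = e

theorem Inv.sub {g g' B C : M} (h : Inv g g' B) (hC : Sub C B) : Inv g g' C :=
  ⟨fun h' => h.e0 (hC _ h'), fun e he => h.e1 e (hC e he), fun e he => h.e2 e (hC e he)⟩

theorem Inv.hx {g g' B e : M} (h : Inv g g' B) (he : e = emp ∨ E e B) :
    SEP.hx g' (SEP.hx g e) = e := by
  rcases he with rfl | he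
  · rw [hx_emp, hx_emp]
  · have h0 : e ≠ emp := fun h' => h.e0 (h' ▸ he)
    rw [hx_ne h0, hx_ne (h.e1 e he), h.e2 e he]

theorem Inv.act {g g' B p : M} (h : Inv g g' B) (hp : E p (PS B)) :
    SEP.act g' (SEP.act g p) = p := by
  apply ext
  intro z
  constructor
  · intro hz
    obtain ⟨a, ha, rfl⟩ := mem_act.1 hz
    obtain ⟨b, hb, rfl⟩ := mem_act.1 ha
    obtain ⟨e, y, rfl, he, hy⟩ := atom_sh hp hb
    rw [p1_opair, p2_opair, p1_opair, p2_opair, h.hx he]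
    exact hb
  · intro hz
    obtain ⟨e, y, rfl, he, hy⟩ := atom_sh hp hz
    have := act_in_of (g := g') (act_in_of (g := g) hz)
    rwa [h.hx he] at this

theorem Inv.actn {g g' B X τ : M} (h : Inv g g' B) (hp : Nm B X τ) :
    SEP.actn g' (SEP.actn g τ) = τ := by
  apply ext
  intro z
  constructor
  · intro hz
    obtain ⟨a, ha, rfl⟩ := mem_actn.1 hz
    obtain ⟨b, hb, rfl⟩ := mem_actn.1 ha
    obtain ⟨q, a, hq, _, rfl⟩ := hp.2 b hb
    rw [p1_opair, p2_opair, p1_opair, p2_opair, h.act hq]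
    exact hb
  · intro hz
    obtain ⟨q, a, hq, _, rfl⟩ := hp.2 z hz
    have := actn_in_of (g := g') (actn_in_of (g := g) hz)
    rwa [h.act hq] at this

theorem Inv.ig {g g' B C : M} (h : Inv g g' B) (hC : Sub C B) : SEP.ig g' (SEP.ig g C) = C := by
  apply ext
  intro z
  constructor
  · intro hz
    obtain ⟨a, ha, rfl⟩ := mem_ig.1 hz
    obtain ⟨b, hb, rfl⟩ := mem_ig.1 ha
    rw [h.e2 b (hC b hb)]
    exact hb
  · intro hz
    exact mem_ig.2 ⟨app g z, mem_ig.2 ⟨z, hz, rfl⟩, (h.e2 z (hC z hz)).symm⟩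

variable (at_ : AtFacts M)
include at_

/-- codes are mapped to codes, other indices to others -/
theorem iso_nc {g J K e : M} (hJ : Sy J) (h : Iso g J K) (he : E e J) (hn : Nc (app g e)) :
    Nc e := by
  rcases (at_.sye hJ he).2.1 with h1 | ⟨B, r, q, x, i, t, rfl⟩
  · exact h1
  · obtain ⟨t', ht'⟩ := h.2.2.2.2.2 B r q x i t he
    exact absurd ⟨_, _, _, _, _, _, ht'⟩ (at_.nc hn)

theorem iso_cd {g J K e B r q x i t : M} (hJ : Sy J) (h : Iso g J K) (he : E e J)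
    (hn : app g e = cod B r q x i t) :
    ∃ B0 r0 q0 x0 t0, e = cod B0 r0 q0 x0 i t0 ∧ B = ig g B0 ∧ r = app g r0 ∧ q = act g q0 ∧
      x = actn g x0 := by
  rcases (at_.sye hJ he).2.1 with h1 | ⟨B0, r0, q0, x0, i0, t0, rfl⟩
  · exact absurd ⟨_, _, _, _, _, _, hn⟩ (at_.nc (h.2.2.2.1 e he h1))
  · obtain ⟨t', ht'⟩ := h.2.2.2.2.2 B0 r0 q0 x0 i0 t0 he
    rw [hn, at_.cd] at ht'
    obtain ⟨h1, h2, h3, h4, rfl, h5⟩ := ht'
    exact ⟨B0, r0, q0, x0, t0, rfl, h1, h2, h3, h4⟩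

theorem isi_main {g J K : M} (hJ : Sy J) (hK : Sy K) (h : Iso g J K) :
    ∃ g', Iso g' K J ∧ (∀ e, E e J → app g' (app g e) = e) ∧ ∀ d, E d K → app g (app g' d) = d := by
  have hdf : Fn1 (fun d : M => the (fun e => E e J ∧ app g e = d)) := inferInstance
  obtain ⟨g', hg'⟩ : ∃ g', g' = gr K (fun d : M => the (fun e => E e J ∧ app g e = d)) := ⟨_, rfl⟩
  have h1 : ∀ e, E e J → app g' (app g e) = e := by
    intro e he
    rw [hg', app_gr hdf (h.1 e he)]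
    exact the_eq (p := fun e' => E e' J ∧ app g e' = app g e) ⟨he, rfl⟩
      fun z hz => h.2.2.1 z e hz.1 he hz.2
  have h2 : ∀ d, E d K → app g (app g' d) = d := by
    intro d hd
    obtain ⟨e, he, rfl⟩ := h.2.1 d hd
    rw [h1 e he]
  have h3 : ∀ d, E d K → E (app g' d) J := by
    intro d hd
    obtain ⟨e, he, rfl⟩ := h.2.1 d hd
    rw [h1 e he]
    exact he
  have hI : Inv g g' J := ⟨at_.sy0 hJ, fun e he h' => at_.sy0 hK (h' ▸ h.1 e he), h1⟩
  refine ⟨g', ⟨h3, fun e he => ⟨app g e, h.1 e he, h1 e he⟩, ?_, ?_, ?_, ?_⟩, h1, h2⟩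
  · intro d d' hd hd' hdd
    rw [← h2 d hd, ← h2 d' hd', hdd]
  · intro d hd hn
    rw [← h2 d hd] at hn
    exact iso_nc at_ hJ h (h3 d hd) hn
  · intro d hd
    obtain ⟨e, he, rfl⟩ := h.2.1 d hd
    rw [h1 e he, h.2.2.2.2.1 e he, hI.ig (hJ e he).1]
  · intro B r q x i t hd
    obtain ⟨e, he, hde⟩ := h.2.1 _ hd
    obtain ⟨B0, r0, q0, x0, t0, rfl, hB, hr, hq, hx⟩ := iso_cd at_ hJ h he hde
    rw [← hde, h1 _ he]
    obtain ⟨_, _, s3, _, s5, _, s7, s8, _⟩ := at_.sycd hJ he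
    refine ⟨t0, ?_⟩
    rw [hB, hr, hq, hx, hI.ig s3, h1 r0 (s3 r0 s5), (hI.sub s3).act s7, (hI.sub s3).actn s8]

/-- the elements of the image of a condition -/
theorem iso_el {g J K p z : M} (hp : E p (PS J)) (hz : E z (act g p)) :
    ∃ e y, E (opair e y) p ∧ (e = emp ∨ E e J) ∧ E y WW ∧ z = opair (hx g e) y := by
  obtain ⟨a, ha, rfl⟩ := mem_act.1 hz
  obtain ⟨e, y, rfl, he, hy⟩ := atom_sh hp ha
  exact ⟨e, y, ha, he, hy, by rw [p1_opair, p2_opair]⟩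

theorem iso_hx_inj {g J K e e' : M} (hJ : Sy J) (hK : Sy K) (h : Iso g J K)
    (he : e = emp ∨ E e J) (he' : e' = emp ∨ E e' J) (hh : hx g e = hx g e') : e = e' := by
  have h0 : ∀ e, E e J → hx g e = app g e ∧ app g e ≠ emp := by
    intro e he
    refine ⟨hx_ne fun h' => at_.sy0 hJ (h' ▸ he), fun h' => at_.sy0 hK (h' ▸ h.1 e he)⟩
  rcases he with rfl | he <;> rcases he' with rfl | he'
  · rfl
  · rw [hx_emp, (h0 e' he').1] at hh
    exact absurd hh.symm (h0 e' he').2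
  · rw [hx_emp, (h0 e he).1] at hh
    exact absurd hh (h0 e he).2
  · rw [(h0 e he).1, (h0 e' he').1] at hh
    exact h.2.2.1 e e' he he' hh

theorem iso_at {g J K p e y : M} (hJ : Sy J) (hK : Sy K) (h : Iso g J K) (hp : E p (PS J))
    (he : e = emp ∨ E e J) : E (opair (hx g e) y) (act g p) ↔ E (opair e y) p := by
  constructor
  · intro hz
    obtain ⟨e', y', h1, h2, h3, h4⟩ := iso_el at_ (K := K) hp hz
    rw [opair_inj] at h4
    obtain ⟨h4, rfl⟩ := h4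
    rw [iso_hx_inj at_ hJ hK h he h2 h4]
    exact h1
  · exact act_in_of

theorem iso_gR {g J K p s τ b : M} (hJ : Sy J) (hK : Sy K) (h : Iso g J K) (hp : E p (PS J)) :
    E (gR s τ b) (act g p) ↔ E (gR s τ b) p := by
  have := iso_at at_ (y := opair two (opair s (opair τ b))) hJ hK h hp (Or.inl rfl)
  rwa [hx_emp] at this

theorem iso_lV {g J K p e v : M} (hJ : Sy J) (hK : Sy K) (h : Iso g J K) (hp : E p (PS J))
    (he : E e J) : E (lV (app g e) v) (act g p) ↔ E (lV e v) p := by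
  have := iso_at at_ (y := opair emp v) hJ hK h hp (Or.inr he)
  rwa [hx_ne fun h' => at_.sy0 hJ (h' ▸ he)] at this

theorem iso_lF {g J K p e z j : M} (hJ : Sy J) (hK : Sy K) (h : Iso g J K) (hp : E p (PS J))
    (he : E e J) : E (lF (app g e) z j) (act g p) ↔ E (lF e z j) p := by
  have := iso_at at_ (y := opair one (opair z j)) hJ hK h hp (Or.inr he)
  rwa [hx_ne fun h' => at_.sy0 hJ (h' ▸ he)] at this

/-- the atoms of the image -/
theorem iso_cs {g J K p z : M} (hJ : Sy J) (hK : Sy K) (h : Iso g J K) (hp : E p (PS J))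
    (hz : E z (act g p)) :
    (∃ s τ b, E s NDS ∧ E τ (SQ om) ∧ E b two ∧ z = gR s τ b ∧ E z p) ∨
    (∃ e v, E e J ∧ E v NDS ∧ z = lV (app g e) v ∧ E (lV e v) p) ∨
    (∃ e y j, E e J ∧ E y BS ∧ E j om ∧ z = lF (app g e) y j ∧ E (lF e y j) p) := by
  obtain ⟨a, ha, hz'⟩ := mem_act.1 hz
  rcases (mem_PS.1 hp).1.2 a ha with ⟨s, τ, b, h1, h2, h3, h4⟩ | ⟨e, v, h1, h2, h4⟩ |
    ⟨e, y, j, h1, h2, h3, h4⟩
  · refine Or.inl ⟨s, τ, b, h1, h2, h3, ?_, ?_⟩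
    · rw [hz', h4, gR, p1_opair, p2_opair, hx_emp]
    · have : z = a := by rw [hz', h4, gR, p1_opair, p2_opair, hx_emp]
      rw [this]
      exact ha
  · refine Or.inr (Or.inl ⟨e, v, h1, h2, ?_, h4 ▸ ha⟩)
    rw [hz', h4, lV, p1_opair, p2_opair, hx_ne fun h' => at_.sy0 hJ (h' ▸ h1)]
    rfl
  · refine Or.inr (Or.inr ⟨e, y, j, h1, h2, h3, ?_, h4 ▸ ha⟩)
    rw [hz', h4, lF, p1_opair, p2_opair, hx_ne fun h' => at_.sy0 hJ (h' ▸ h1)]
    rfl

theorem iso_lV' {g J K p d v : M} (hJ : Sy J) (hK : Sy K) (h : Iso g J K) (hp : E p (PS J))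
    (hz : E (lV d v) (act g p)) : ∃ e, E e J ∧ d = app g e ∧ E (lV e v) p := by
  rcases iso_cs at_ hJ hK h hp hz with ⟨s, τ, b, _, _, _, h4, _⟩ | ⟨e, v', h1, _, h4, h5⟩ |
    ⟨e, y, j, _, _, _, h4, _⟩
  · exact absurd h4.symm at_.RV
  · obtain ⟨rfl, rfl⟩ := at_.VV.1 h4
    exact ⟨e, h1, rfl, h5⟩
  · exact absurd h4 at_.VF

theorem iso_lF' {g J K p d z j : M} (hJ : Sy J) (hK : Sy K) (h : Iso g J K) (hp : E p (PS J))
    (hz : E (lF d z j) (act g p)) : ∃ e, E e J ∧ d = app g e ∧ E (lF e z j) p := by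
  rcases iso_cs at_ hJ hK h hp hz with ⟨s, τ, b, _, _, _, h4, _⟩ | ⟨e, v', h1, _, h4, h5⟩ |
    ⟨e, y, j', h1, _, _, h4, h5⟩
  · exact absurd h4.symm at_.RF
  · exact absurd h4.symm at_.VF
  · obtain ⟨rfl, rfl, rfl⟩ := at_.FF.1 h4
    exact ⟨e, h1, rfl, h5⟩

theorem iso_act_in {g J K p : M} (hJ : Sy J) (hK : Sy K) (h : Iso g J K) (hp : E p (PS J)) :
    E (act g p) (PS K) := by
  obtain ⟨h1, h2, h3, h4, h5, h6⟩ := mem_PS.1 hp
  refine mem_PS.2 ⟨⟨?_, ?_⟩, ?_, ?_, ?_, ?_, ?_⟩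
  · unfold act
    exact finF.img _ inferInstance h1.1
  · intro a ha
    rcases iso_cs at_ hJ hK h hp ha with ⟨s, τ, b, k1, k2, k3, k4, _⟩ | ⟨e, v, k1, k2, k4, _⟩ |
      ⟨e, y, j, k1, k2, k3, k4, _⟩
    · exact Or.inl ⟨s, τ, b, k1, k2, k3, k4⟩
    · exact Or.inr (Or.inl ⟨_, v, h.1 e k1, k2, k4⟩)
    · exact Or.inr (Or.inr ⟨_, y, j, h.1 e k1, k2, k3, k4⟩)
  · intro s τ b b' k k'
    rw [iso_gR at_ hJ hK h hp] at k k'
    exact h2 s τ b b' k k'
  · intro e v v' k k'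
    obtain ⟨e0, he0, rfl, k1⟩ := iso_lV' at_ hJ hK h hp k
    exact h3 e0 v v' k1 ((iso_lV at_ hJ hK h hp he0).1 k')
  · intro e z j v s k k' h7 h8 h9
    obtain ⟨e0, he0, rfl, k1⟩ := iso_lF' at_ hJ hK h hp k
    exact (iso_gR at_ hJ hK h hp).2
      (h4 e0 z j v s k1 ((iso_lV at_ hJ hK h hp he0).1 k') h7 h8 h9)
  · intro e v k hn n a hna
    obtain ⟨e0, he0, rfl, k1⟩ := iso_lV' at_ hJ hK h hp k
    exact h5 e0 v k1 (iso_nc at_ hJ h he0 hn) n a hna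
  · intro B r q x i t v k
    obtain ⟨e0, he0, k0, k1⟩ := iso_lV' at_ hJ hK h hp k
    obtain ⟨B0, r0, q0, x0, t0, rfl, hB, hr, hq, hx⟩ := iso_cd at_ hJ h he0 k0.symm
    obtain ⟨k2, k3⟩ := h6 B0 r0 q0 x0 i t0 v k1
    obtain ⟨_, _, s3, _, s5, _, s7, s8, _⟩ := at_.sycd hJ he0
    refine ⟨hq ▸ act_mono k2, fun n a hna => ?_⟩
    obtain ⟨a0, c', c, e1, e2, e3, e4, ⟨q', e5, e6⟩, v', e7, e8⟩ := k3 n a hna
    refine ⟨a0, c', c, e1, e2, e3, e4, ⟨act g q', act_mono e5, hx ▸ actn_in_of e6⟩, v', ?_, e8⟩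
    rw [hr, iso_lV at_ hJ hK h hp (s3 r0 s5)]
    exact e7

theorem iso_sub {g J K B : M} (hJ : Sy J) (hK : Sy K) (h : Iso g J K) (hB : Sy B)
    (hBJ : Sub B J) : Iso g B (ig g B) ∧ Sy (ig g B) ∧ Sub (ig g B) K := by
  have hs : Sub (ig g B) K := by
    intro z hz
    obtain ⟨e, he, rfl⟩ := mem_ig.1 hz
    exact h.1 e (hBJ e he)
  refine ⟨⟨fun e he => mem_ig.2 ⟨e, he, rfl⟩, ?_, fun e e' he he' => h.2.2.1 e e' (hBJ e he)
    (hBJ e' he'), fun e he => h.2.2.2.1 e (hBJ e he), fun e he => h.2.2.2.2.1 e (hBJ e he),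
    fun B r q x i t he => h.2.2.2.2.2 B r q x i t (hBJ _ he)⟩, ?_, hs⟩
  · intro d hd
    obtain ⟨e, he, rfl⟩ := mem_ig.1 hd
    exact ⟨e, he, rfl⟩
  · refine at_.sysub hK hs ?_
    intro d hd
    obtain ⟨e, he, rfl⟩ := mem_ig.1 hd
    rw [h.2.2.2.2.1 e (hBJ e he)]
    exact ig_mono (hB e he).1

/-- part of `IsoFacts` which is used for the inverse as well -/
theorem iso_nm {g g' J K X τ : M} (hJ : Sy J) (hK : Sy K) (h : Iso g J K) (hI : Inv g g' J)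
    (hτ : Nm J X τ) : Nm K X (actn g τ) := by
  refine ⟨?_, ?_⟩
  · obtain ⟨f, hf1, hf2⟩ := hτ.1
    have h0 : ∀ z, E z (actn g τ) → E (opair (act g' (p1 z)) (p2 z)) τ ∧
        z = opair (act g (act g' (p1 z))) (p2 z) := by
      intro z hz
      obtain ⟨b, hb, rfl⟩ := mem_actn.1 hz
      obtain ⟨q, a, hq, _, rfl⟩ := hτ.2 b hb
      rw [p1_opair, p2_opair, p1_opair, p2_opair, hI.act hq]
      exact ⟨hb, rfl⟩
    refine ⟨sep (prod (actn g τ) om) (fun w => ∃ z n, w = opair z n ∧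
      E (opair (opair (act g' (p1 z)) (p2 z)) n) f), ?_, ?_⟩
    · intro z hz
      obtain ⟨n, hn, hn'⟩ := hf1 _ (h0 z hz).1
      exact ⟨n, hn, mem_sep.2 ⟨mem_prod.2 ⟨hz, hn⟩, z, n, rfl, hn'⟩⟩
    · intro y y' n hy hy' hn h1 h2
      obtain ⟨_, z, n1, h3, h4⟩ := mem_sep.1 h1
      obtain ⟨_, z', n2, h5, h6⟩ := mem_sep.1 h2
      rw [opair_inj] at h3 h5
      obtain ⟨rfl, rfl⟩ := h3
      obtain ⟨rfl, rfl⟩ := h5
      have h7 := hf2 _ _ n (h0 y hy).1 (h0 y' hy').1 hn h4 h6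
      rw [opair_inj] at h7
      rw [(h0 y hy).2, (h0 y' hy').2, h7.1, h7.2]
  · intro z hz
    obtain ⟨b, hb, rfl⟩ := mem_actn.1 hz
    obtain ⟨q, a, hq, ha, rfl⟩ := hτ.2 b hb
    rw [p1_opair, p2_opair]
    exact ⟨_, _, iso_act_in at_ hJ hK h hq, ha, rfl⟩

end

end Isf

open Isf

/-- ISI -/
theorem sep_isi (hat : ATMStmt) : ISIStmt := fun M _ _ g J K hJ hK h =>
  isi_main (hat M) hJ hK h

/-- ISF -/
theorem sep_isf (hat : ATMStmt) : ISFStmt := by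
  intro M _ _ g J K hJ hK h
  have at_ := hat M
  obtain ⟨g', h', h1, h2⟩ := isi_main at_ hJ hK h
  have hI : Inv g g' J := ⟨at_.sy0 hJ, fun e he h' => at_.sy0 hK (h' ▸ h.1 e he), h1⟩
  have hI' : Inv g' g K := ⟨at_.sy0 hK, fun e he h'' => at_.sy0 hJ (h'' ▸ h'.1 e he), h2⟩
  have hid : ∀ {B p : M}, Sub B J → (∀ e, E e B → app g e = e) → E p (PS B) → act g p = p := by
    intro B p hB hid hp
    have h0 : ∀ e, (e = emp ∨ E e B) → hx g e = e := by
      rintro e (rfl | he)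
      · exact hx_emp g
      · rw [hx_ne fun h' => at_.sy0 hJ (h' ▸ hB e he), hid e he]
    apply ext
    intro z
    constructor
    · intro hz
      obtain ⟨a, ha, rfl⟩ := mem_act.1 hz
      obtain ⟨e, y, rfl, he, _⟩ := atom_sh hp ha
      rw [p1_opair, p2_opair, h0 e he]
      exact ha
    · intro hz
      obtain ⟨e, y, rfl, he, _⟩ := atom_sh hp hz
      have := act_in_of (g := g) hz
      rwa [h0 e he] at this
  refine
    { act_in := fun hp => iso_act_in at_ hJ hK h hp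
      act_sub := ?_
      act_sur := fun {q} hq => ⟨act g' q, iso_act_in at_ hK hJ h' hq, hI'.act hq⟩
      act_inj := ?_
      act_emp := ?_
      act_bun := ?_
      gRa := fun hp => iso_gR at_ hJ hK h hp
      lVa := fun hp he => iso_lV at_ hJ hK h hp he
      lFa := fun hp he => iso_lF at_ hJ hK h hp he
      inv := ⟨g', h', h1, h2, fun p hp => hI.act hp, fun q hq => hI'.act hq,
        fun X τ hτ => hI.actn hτ, fun B hB => hI.ig hB⟩
      sub := fun hB hBJ => iso_sub at_ hJ hK h hB hBJ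
      nm := fun hτ => iso_nm at_ hJ hK h hI hτ
      idp := hid
      idn := ?_
      rJa := ?_ }
  · intro p q hp hq
    refine ⟨fun hs => ?_, act_mono⟩
    have := act_mono (g := g') hs
    rwa [hI.act hp, hI.act hq] at this
  · intro p q hp hq hpq
    rw [← hI.act hp, ← hI.act hq, hpq]
  · exact eq_emp fun z hz => by
      obtain ⟨a, ha, _⟩ := mem_act.1 hz
      exact not_mem_emp _ ha
  · intro p q
    apply ext
    intro z
    rw [mem_bun, mem_act, mem_act, mem_act]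
    constructor
    · rintro ⟨a, ha, rfl⟩
      rcases mem_bun.1 ha with ha | ha
      · exact Or.inl ⟨a, ha, rfl⟩
      · exact Or.inr ⟨a, ha, rfl⟩
    · rintro (⟨a, ha, rfl⟩ | ⟨a, ha, rfl⟩)
      · exact ⟨a, mem_bun.2 (Or.inl ha), rfl⟩
      · exact ⟨a, mem_bun.2 (Or.inr ha), rfl⟩
  · intro B X τ hB hid' hτ
    apply ext
    intro z
    constructor
    · intro hz
      obtain ⟨b, hb, rfl⟩ := mem_actn.1 hz
      obtain ⟨q, a, hq, _, rfl⟩ := hτ.2 b hb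
      rw [p1_opair, p2_opair, hid hB hid' hq]
      exact hb
    · intro hz
      obtain ⟨q, a, hq, _, rfl⟩ := hτ.2 z hz
      have := actn_in_of (g := g) hz
      rwa [hid hB hid' hq] at this
  · intro B p hB hBJ hp
    apply ext
    intro z
    rw [mem_rJ]
    constructor
    · intro hz
      obtain ⟨a, ha, rfl⟩ := mem_act.1 hz
      obtain ⟨ha, ha'⟩ := mem_rJ.1 ha
      refine ⟨mem_act.2 ⟨a, ha, rfl⟩, ?_⟩
      obtain ⟨e, y, he, hy, rfl⟩ := mem_prod'.1 ha'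
      rw [p1_opair, p2_opair, mem_prod]
      refine ⟨?_, hy⟩
      rcases mem_ins.1 he with he | rfl
      · rw [hx_ne fun h' => at_.sy0 hJ (h' ▸ hBJ e he)]
        exact mem_ins.2 (Or.inl (mem_ig.2 ⟨e, he, rfl⟩))
      · rw [hx_emp]
        exact mem_ins.2 (Or.inr rfl)
    · rintro ⟨hz, hz'⟩
      obtain ⟨e, y, h3, h4, h5, rfl⟩ := iso_el at_ (K := K) hp hz
      refine act_in_of (mem_rJ.2 ⟨h3, mem_prod.2 ⟨?_, h5⟩⟩)
      have h6 := (mem_prod.1 hz').1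
      rcases h4 with rfl | h4
      · exact mem_ins.2 (Or.inr rfl)
      · rw [hx_ne fun h' => at_.sy0 hJ (h' ▸ h4), mem_ins] at h6
        rcases h6 with h6 | h6
        · obtain ⟨e1, h7, h8⟩ := mem_ig.1 h6
          rw [h.2.2.1 e e1 h4 (hBJ e1 h7) h8]
          exact mem_ins.2 (Or.inl h7)
        · exact absurd h6 (hI.e1 e h4)

end SW.SEP
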