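import Pool.Agent.H13.SEP.ISF

/-!
Project SEP, modules OEQ and OKI: the sets of good codes, their invariance.
-/

set_option linter.unusedVariables false
set_option synthInstance.maxSize 100000

namespace SW.SEP

open SW

namespace Oki

section
variable {M : Type} [SetStr M] [ZF M]

theorem tc_rr {a b c : M} (h : E c (tc b)) : E c (tc (opair a b)) := by
  have h1 : E (upair a b) (tc (opair a b)) := sub_tc _ _ (by simp [opair])
  have h2 : E b (tc (opair a b)) := Trans_tc _ _ h1 _ (by simp)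
  exact tc_min (Trans_tc (opair a b) b h2) (Trans_tc (opair a b)) c h

theorem tc_l {a b : M} : E a (tc (opair a b)) := by
  have h1 : E (sing a) (tc (opair a b)) := sub_tc _ _ (by simp [opair])
  exact Trans_tc _ _ h1 _ (by simp)

/-- members of the base of `r` are in the transitive closure of `r` -/
theorem bs_tc {r e : M} (h : E e (bs r)) : E e (tc r) := by
  by_cases hu : ∃! B, ∃ k s, r = opair k (opair B s)
  · obtain ⟨B, ⟨k, s, rfl⟩, _⟩ := hu
    rw [bs_opair] at h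
    exact Trans_tc _ B (tc_rr tc_l) e h
  · have : bs r = emp := by
      unfold bs the
      rw [dif_neg hu]
    rw [this] at h
    exact absurd h (not_mem_emp _)

theorem ExsO_congr {H r I J : M} {O O' : M → M} (hO : ∀ r', E r' (bs r) → O r' = O' r')
    (h : ExsO H O r I J) : ExsO H O' r I J :=
  ⟨h.1, h.2.1, h.2.2.1, h.2.2.2.1, fun B r' q x i t h1 h2 h3 h4 =>
    hO r' h3 ▸ h.2.2.2.2 B r' q x i t h1 h2 h3 h4⟩

theorem CanO_congr {H r I p x : M} {O O' : M → M} (hO : ∀ r', E r' (bs r) → O r' = O' r')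
    (h : CanO H O r I p x) : CanO H O' r I p x := by
  obtain ⟨J, p', h1, h2, h3, h4⟩ := h
  exact ⟨J, p', ExsO_congr hO h1, h2, h3, h4⟩

theorem OkO_congr {H r e : M} {O O' : M → M} (hO : ∀ r', E r' (bs r) → O r' = O' r')
    (h : OkO H O r e) : OkO H O' r e := by
  obtain ⟨B, q, x, i, t, he, h⟩ := h
  refine ⟨B, q, x, i, t, he, ?_⟩
  rcases h with ⟨h1, h2⟩ | ⟨h1, h2⟩
  · exact Or.inl ⟨h1, fun h3 => h2 (CanO_congr (fun r' h => (hO r' h).symm) h3)⟩
  · exact Or.inr ⟨h1, fun p h3 h4 => CanO_congr hO (h2 p h3 h4)⟩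

end

end Oki

open Oki

/-- OEQ -/
theorem sep_oeq (htr : TRECStmt) : OEQStmt := by
  intro M _ _ H r e
  have hF : Fn2 (fun r g : M => sep H (fun e => OkO H (fun r' => app g r') r e)) := inferInstance
  have hOO : Fn1 (fun r : M => OO H r) := inferInstance
  have h0 : OO H r = sep H (fun e => OkO H (fun r' => app (gr (tc r) (OO H)) r') r e) :=
    htr M _ hF r
  have h1 : ∀ r', E r' (bs r) → app (gr (tc r) (OO H)) r' = OO H r' := fun r' hr' =>
    app_gr hOO (bs_tc hr')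
  rw [h0, mem_sep]
  exact and_congr_right fun _ => ⟨OkO_congr h1, OkO_congr fun r' hr' => (h1 r' hr').symm⟩

/-- OKI -/
theorem sep_oki (hat : ATMStmt) (hisf : ISFStmt) (hoeq : OEQStmt) : OKIStmt := by
  intro M _ _ H r hH hr hinv g B1 B2 q x i t t' hB1 hB2 hB1H hB2H hg hgr hgb hc1 hc2 hcH hO
  have at_ := hat M
  obtain ⟨_, B, q0, x0, i0, t0, he, hO⟩ := (hoeq M H r _).1 hO
  rw [at_.cd] at he
  obtain ⟨rfl, -, rfl, rfl, rfl, rfl⟩ := he
  obtain ⟨B', r', q', x', i', t1, he, hcb1, _, hrB1, _, hqB1, hxB1, _⟩ := hc1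
  rw [at_.cd] at he
  obtain ⟨rfl, rfl, rfl, rfl, rfl, rfl⟩ := he
  obtain ⟨B', r', q', x', i', t1, he, hcb2, _, hrB2, _, _⟩ := hc2
  rw [at_.cd] at he
  obtain ⟨rfl, rfl, -⟩ := he
  have hf := hisf M g B1 B2 hB1 hB2 hg
  obtain ⟨g', hg', k1, k2, k3, k4, k5, k6⟩ := hf.inv
  have hg'r : app g' r = r := by
    have := k1 r hrB1
    rwa [hgr] at this
  have hg'b : ∀ e, E e (bs r) → app g' e = e := by
    intro e he
    have := k1 e ((hB1 r hrB1).1 e he)
    rwa [hgb e he] at this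
  refine (hoeq M H r _).2 ⟨hcH, B2, act g q, actn g x, i, t', rfl, ?_⟩
  rcases hO with ⟨hi, h2⟩ | ⟨hi, h2⟩
  · refine Or.inl ⟨hi, fun h3 => h2 ?_⟩
    have := hinv g' B2 B1 (act g q) (actn g x) hB2 hB1 hcb2 hcb1 hB2H hB1H hg' hrB2 hrB1 hg'r hg'b
      (hf.act_in hqB1) (hf.nm hxB1) h3
    rwa [k3 q hqB1, k5 _ x hxB1] at this
  · refine Or.inr ⟨hi, fun p hp hqp => ?_⟩
    have hf' := hisf M g' B2 B1 hB2 hB1 hg'
    have h4 : Sub q (act g' p) := by
      have := Isf.act_mono (g := g') hqp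
      rwa [k3 q hqB1] at this
    have := hinv g B1 B2 (act g' p) x hB1 hB2 hcb1 hcb2 hB1H hB2H hg hrB1 hrB2 hgr hgb
      (hf'.act_in hp) hxB1 (h2 _ (hf'.act_in hp) h4)
    rwa [k4 p hp] at this

end SW.SEP
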